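import Pool.Agent.Lib.VR29.Col
import Pool.Agent.Lib.VR29.LowRank

/-!
# MP_29a76b_gt: the volume ratio of the linear images of the nuclear norm ball

The image of the unit ball of the nuclear norm under every SURJECTIVE linear map from the real
`d × d` matrices to `ℝ^d` has volume ratio at most `14000`. For maps of rank `k` (the volume ratio
being computed in the linear span of the image) the largest possible volume ratio is
`√(min k (1 + log (d / k)))` up to constant factors, for all `1 ≤ k ≤ d`; so it is unbounded if all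
ranks are allowed.

The proof of the upper bound: a linear discrepancy theorem for matrices (`MSp.lin_disc`: for all
contractions `A_1, ..., A_k` and all `x ∈ [-1,1]^k` there are signs `z` such that the operator norm of
`∑ (z_i - x_i) A_i` is at most `2000 √(k (1 + log (d / k)))`), the Blaschke-Santalo inequality
(`VR29.santalo`), and a lemma of Dvoretzky and Rogers (`VR29.dr_main`).

Definitions (`ellipsoid`, `nuclearNorm`, `nuclearBall`, `onSpan`, `volumeRatioIn`, `volumeRatio`,
`vrImage`): `Pool/Agent/Lib/VR29/Spec.lean`.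
-/

set_option autoImplicit false

open VR29

namespace Pool.Agent.Results.MP_29a76b_gt.ExactOrder

/-- The volume ratio of the image of the unit ball of the nuclear norm is at most `14000` for every
surjective `M`; for every `M` of rank `k` it is at most `14000 √(min k (1 + log (d / k)))`; for all
`1 ≤ k ≤ d` this is sharp up to the constant (note `1 + log (d / k) ≤ log₂ (2 d / k)`); in particular
it is unbounded over all `M`. -/
theorem result :
    (∀ (d : ℕ) (M : Matrix (Fin d) (Fin d) ℝ →ₗ[ℝ] EuclideanSpace ℝ (Fin d)),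
      Function.Surjective M → vrImage M ≤ 14000) ∧
    (∀ (k d : ℕ) (M : Matrix (Fin d) (Fin d) ℝ →ₗ[ℝ] EuclideanSpace ℝ (Fin d)), 1 ≤ k →
      Module.finrank ℝ (LinearMap.range M) = k →
      vrImage M ≤
        14000 * Real.sqrt (min (k : ℝ) (1 + Real.log (d / k)))) ∧
    (∀ k d : ℕ, 1 ≤ k → k ≤ d →
      ∃ M : Matrix (Fin d) (Fin d) ℝ →ₗ[ℝ] EuclideanSpace ℝ (Fin d),
        Module.finrank ℝ (LinearMap.range M) = k ∧
        1 / 7 * Real.sqrt (min (k : ℝ) (Real.logb 2 (2 * d / k))) ≤
          vrImage M) ∧
    (∀ C : ℝ, ∃ (d : ℕ) (M : Matrix (Fin d) (Fin d) ℝ →ₗ[ℝ] EuclideanSpace ℝ (Fin d)),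
      1 ≤ d ∧ C < vrImage M) := by
  refine ⟨fun d M hM => ?_, fun k d M hk hM => ?_, fun k d hk hkd => LR.exists_map hk hkd,
    fun C => ?_⟩
  · exact (vr_surj (by norm_num) colouring_2000 d M hM).trans (by norm_num)
  · refine (vr_rank (by norm_num) colouring_2000 d k M hk hM).trans (le_of_eq ?_)
    norm_num
  · obtain ⟨k, hkC⟩ := exists_nat_gt ((7 * C) ^ 2 + 1)
    have hk1 : (1 : ℝ) < k := by
      have := sq_nonneg (7 * C)
      linarith
    have hk : 1 ≤ k := by exact_mod_cast hk1.le
    have hk0 : (0 : ℝ) < k := by linarith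
    have hkd : k ≤ k * 2 ^ k := Nat.le_mul_of_pos_right _ (by positivity)
    obtain ⟨M, _, hM⟩ := LR.exists_map hk hkd
    refine ⟨k * 2 ^ k, M, hk.trans hkd, lt_of_lt_of_le ?_ hM⟩
    have e1 : (min (k : ℝ) (Real.logb 2 (2 * ((k * 2 ^ k : ℕ) : ℝ) / k))) = k := by
      apply min_eq_left
      rw [Real.le_logb_iff_rpow_le (by norm_num) (by positivity), Real.rpow_natCast,
        le_div_iff₀ hk0]
      push_cast
      have : (0 : ℝ) < k * 2 ^ k := by positivity
      nlinarith
    rw [e1]
    have e2 : 7 * C < Real.sqrt k := by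
      apply Real.lt_sqrt_of_sq_lt
      linarith
    linarith

end Pool.Agent.Results.MP_29a76b_gt.ExactOrder
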